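import Pool.Agent.U762.EE.Stm

set_option autoImplicit false

/-!
# Project EE, package REACH: the probability to reach a height
-/

namespace Pool.Agent.U329.EE

open Finset MeasureTheory Filter Pool.Agent.U762.RP Pool.Agent.U762.EE

variable {d : ℕ} {m r : ℤ → ℤ} {w : ℤ → ℝ} {B : ℕ} {M : ℝ}

theorem Q_mono (hw : ∀ u, 0 ≤ w u) {F G : ℤ → ℝ} (h : ∀ z, F z ≤ G z) (x : ℤ) :
    Q d m r w B M F x ≤ Q d m r w B M G x := by
  unfold Q
  split_ifs
  · exact le_rfl
  · exact Finset.sum_le_sum fun u _ => mul_le_mul_of_nonneg_left (h _) (hw u)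

theorem Q_iter_mono (hw : ∀ u, 0 ≤ w u) {F G : ℤ → ℝ} (h : ∀ z, F z ≤ G z) (i : ℕ) (x : ℤ) :
    (Q d m r w B M)^[i] F x ≤ (Q d m r w B M)^[i] G x := by
  induction i generalizing x with
  | zero => exact h x
  | succ i ih =>
    rw [Function.iterate_succ_apply', Function.iterate_succ_apply']
    exact Q_mono hw ih x

theorem Q_smul (a : ℝ) (F : ℤ → ℝ) (x : ℤ) :
    Q d m r w B M (fun z => a * F z) x = a * Q d m r w B M F x := by
  unfold Q
  split_ifs
  · simp
  · rw [Finset.mul_sum]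
    exact Finset.sum_congr rfl fun u _ => by ring

theorem Q_iter_smul (a : ℝ) (F : ℤ → ℝ) (i : ℕ) (x : ℤ) :
    (Q d m r w B M)^[i] (fun z => a * F z) x = a * (Q d m r w B M)^[i] F x := by
  induction i generalizing x with
  | zero => rfl
  | succ i ih =>
    rw [Function.iterate_succ_apply', Function.iterate_succ_apply', ← Q_smul]
    congr 1
    funext z
    exact ih z

theorem V_nonneg (M θ : ℝ) (x : ℤ) : 0 ≤ V M θ x := by
  unfold V
  split_ifs
  · exact le_rfl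
  · exact Real.rpow_nonneg (abs_nonneg _) _

theorem V_le (M θ : ℝ) (x : ℤ) : V M θ x ≤ |(x : ℝ)| ^ θ := by
  unfold V
  split_ifs
  · exact Real.rpow_nonneg (abs_nonneg _) _
  · exact le_rfl

theorem t_REACH : S_REACH := by
  intro hP d m r μ _ B hB M C lam θ hM hC hl0 hl1 hθ hQ Y x hY
  have hY0 : 0 < Y := by linarith
  have hYθ : 0 < Y ^ (-θ) := Real.rpow_pos_of_pos hY0 _
  have hx : 0 ≤ |(x : ℝ)| ^ θ := Real.rpow_nonneg (abs_nonneg _) _
  have hpt : ∀ z : ℤ, (if Y ≤ |(z : ℝ)| then (1 : ℝ) else 0) ≤ Y ^ (-θ) * V M θ z := by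
    intro z
    split_ifs with h
    · have h1 : V M θ z = |(z : ℝ)| ^ θ := by
        unfold V
        rw [if_neg (not_lt.2 (hY.trans h))]
      have h2 : Y ^ θ ≤ |(z : ℝ)| ^ θ := Real.rpow_le_rpow hY0.le h hθ.le
      have h3 : Y ^ (-θ) * Y ^ θ = 1 := by
        rw [← Real.rpow_add hY0]
        simp
      rw [h1, ← h3]
      exact mul_le_mul_of_nonneg_left h2 hYθ.le
    · exact mul_nonneg hYθ.le (V_nonneg _ _ _)
  have hL : ∀ L : ℕ, (Measure.infinitePi fun _ : ℤ => μ) {ω | Reach d m r M Y L x ω} ≤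
      ENNReal.ofReal (C * |(x : ℝ)| ^ θ * Y ^ (-θ) * lam ^ L) := by
    intro L
    refine (hP d m r μ B hB M Y L x).trans (ENNReal.ofReal_le_ofReal ?_)
    refine (Q_iter_mono (fun u => measureReal_nonneg) hpt L x).trans ?_
    rw [Q_iter_smul]
    calc Y ^ (-θ) * (Q d m r (fun u => μ.real {u}) B M)^[L] (V M θ) x
        ≤ Y ^ (-θ) * (C * lam ^ L * V M θ x) := mul_le_mul_of_nonneg_left (hQ L x) hYθ.le
      _ ≤ Y ^ (-θ) * (C * lam ^ L * |(x : ℝ)| ^ θ) := by
          apply mul_le_mul_of_nonneg_left _ hYθ.le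
          apply mul_le_mul_of_nonneg_left (V_le M θ x)
          positivity
      _ = C * |(x : ℝ)| ^ θ * Y ^ (-θ) * lam ^ L := by ring
  have hset : {ω | ∃ L : ℕ, Reach d m r M Y L x ω} = ⋃ L : ℕ, {ω | Reach d m r M Y L x ω} := by
    ext ω
    simp
  rw [hset]
  refine (measure_iUnion_le _).trans ((ENNReal.tsum_le_tsum hL).trans ?_)
  have hs : Summable fun L : ℕ => C * |(x : ℝ)| ^ θ * Y ^ (-θ) * lam ^ L :=
    (summable_geometric_of_lt_one hl0.le hl1).mul_left _
  rw [← ENNReal.ofReal_tsum_of_nonneg (fun L => by positivity) hs, tsum_mul_left,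
    tsum_geometric_of_lt_one hl0.le hl1]
  apply ENNReal.ofReal_le_ofReal
  apply le_of_eq
  rw [div_eq_mul_inv]
  ring

end Pool.Agent.U329.EE
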